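import Mathlib

/-!
# A counterexample to the integrality of the power-sum ratios `T_{n,k}`
-/

open Finset

namespace Pool.Agent.Results.MP_0634a4_nt.TNotIntegral

/-- The `ℓ`-sequence: `u_0 = 0`, `u_1 = 1`, `u_m = ℓ u_{m-1} - u_{m-2}`. -/
def u (l : ℤ) : ℕ → ℤ
  | 0 => 0
  | 1 => 1
  | (m + 2) => l * u l (m + 1) - u l m

/-- The tail sum `S_k(j,n) = ∑_{i=j}^{n} u_i^{2k-1}` of odd powers. -/
def S (l : ℤ) (k j n : ℕ) : ℚ := ∑ i ∈ Finset.Icc j n, ((u l i : ℤ) : ℚ) ^ (2 * k - 1)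

/-- `P_{n,k} = ∏_{j=1}^{n} S_k(j,n) / u_j`. -/
def P (l : ℤ) (n k : ℕ) : ℚ := ∏ j ∈ Finset.Icc 1 n, S l k j n / ((u l j : ℤ) : ℚ)

/-- `R_{n,k} = S_k(1,n) / S_1(1,n)`. -/
def R (l : ℤ) (n k : ℕ) : ℚ := S l k 1 n / S l 1 1 n

/-- `T_{n,k} = (∑_{i=1}^{n} u_i^{3(4k-3)}) / (∑_{i=1}^{n} u_i^3)`. -/
def T (l : ℤ) (n k : ℕ) : ℚ :=
  (∑ i ∈ Finset.Icc 1 n, ((u l i : ℤ) : ℚ) ^ (3 * (4 * k - 3))) /
    ∑ i ∈ Finset.Icc 1 n, ((u l i : ℤ) : ℚ) ^ 3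

/-- The conjecture of the problem: (a) `P_{n,k}` and `R_{n,k}` are integers for all `ℓ ≥ 2` and
`n, k ≥ 1`, and (b) `T_{n,k}` is an integer for `ℓ = 2` and `n, k ≥ 1`. -/
def Conjecture : Prop :=
  ∀ n k : ℕ, 1 ≤ n → 1 ≤ k →
    (∀ l : ℤ, 2 ≤ l → (∃ z : ℤ, P l n k = z) ∧ (∃ z : ℤ, R l n k = z)) ∧
      (∃ z : ℤ, T 2 n k = z)

/-- `T_{10,5}` is not an integer for `ℓ = 2`; hence the conjecture is false. -/
theorem result : (¬ ∃ z : ℤ, T 2 10 5 = z) ∧ ¬ Conjecture := by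
  have key : ¬ ∃ z : ℤ, T 2 10 5 = z := by
    rintro ⟨z, hz⟩
    have h : (∑ i ∈ Finset.Icc 1 10, ((u 2 i : ℤ) : ℚ) ^ (3 * (4 * 5 - 3))) =
        z * ∑ i ∈ Finset.Icc 1 10, ((u 2 i : ℤ) : ℚ) ^ 3 := by
      rw [← hz, T]
      have : (∑ i ∈ Finset.Icc 1 10, ((u 2 i : ℤ) : ℚ) ^ 3) ≠ 0 := by
        simp [Finset.sum_Icc_succ_top, u]
        norm_num
      field_simp
    have h' : (∑ i ∈ Finset.Icc 1 10, (u 2 i : ℤ) ^ (3 * (4 * 5 - 3))) =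
        z * ∑ i ∈ Finset.Icc 1 10, (u 2 i : ℤ) ^ 3 := by
      exact_mod_cast h
    simp [Finset.sum_Icc_succ_top, u] at h'
    norm_num at h'
    omega
  exact ⟨key, fun hc => key (hc 10 5 (by norm_num) (by norm_num)).2⟩

end Pool.Agent.Results.MP_0634a4_nt.TNotIntegral
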